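import Pool.Agent.H83.FS.Stm

/-!
# The two claw lemmas
-/

set_option autoImplicit false

namespace Pool.Agent.H83.FS

open SimpleGraph

theorem claw2 : S_claw2 := by
  intro V T _ _ Y col σ x y z w hxy hxz hxw hyz hyw hzw c1 c2 c3
  obtain ⟨a, rfl⟩ := σ.surjective x
  obtain ⟨a', rfl⟩ := σ.surjective y
  obtain ⟨b, rfl⟩ := σ.surjective z
  obtain ⟨b', rfl⟩ := σ.surjective w
  simp only [pc, Equiv.symm_apply_apply] at c1 c2 c3 ⊢
  have n1 : a ≠ a' := fun h => hxy.ne (by rw [h])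
  have n2 : a ≠ b := fun h => hxz.ne (by rw [h])
  have n3 : a ≠ b' := fun h => hxw.ne (by rw [h])
  have n4 : a' ≠ b := fun h => hyz (by rw [h])
  have n5 : a' ≠ b' := fun h => hyw (by rw [h])
  have n6 : b ≠ b' := fun h => hzw (by rw [h])
  have d1 : col a ≠ col b := by rw [c2]; simp
  have d2 : col a' ≠ col b := by rw [c3]; simp
  have d3 : col a' ≠ col b' := by rw [c3, c1]; simp
  have d4 : col a ≠ col b' := by rw [c2, c1]; simp
  refine ⟨a, a', n1, c2, c3, ?_⟩
  have s1 : Rch Y col σ ((Equiv.swap a b).trans σ) := move' hxz d1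
  set σ1 : T ≃ V := (Equiv.swap a b).trans σ with e1
  have p1a : σ1 a = σ b := by simp [e1]
  have p1b : σ1 b = σ a := by simp [e1]
  have p1a' : σ1 a' = σ a' := by simp [e1, Equiv.swap_apply_of_ne_of_ne n1.symm n4]
  have p1b' : σ1 b' = σ b' := by simp [e1, Equiv.swap_apply_of_ne_of_ne n3.symm n6.symm]
  have s2 : Rch Y col σ1 ((Equiv.swap b a').trans σ1) :=
    move' (by rw [p1b, p1a']; exact hxy) d2.symm
  set σ2 : T ≃ V := (Equiv.swap b a').trans σ1 with e2
  have p2a : σ2 a = σ b := by simp [e2, Equiv.swap_apply_of_ne_of_ne n2 n1, p1a]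
  have p2b : σ2 b = σ a' := by simp [e2, p1a']
  have p2a' : σ2 a' = σ a := by simp [e2, p1b]
  have p2b' : σ2 b' = σ b' := by simp [e2, Equiv.swap_apply_of_ne_of_ne n6.symm n5.symm, p1b']
  have s3 : Rch Y col σ2 ((Equiv.swap a' b').trans σ2) :=
    move' (by rw [p2a', p2b']; exact hxw) d3
  set σ3 : T ≃ V := (Equiv.swap a' b').trans σ2 with e3
  have p3a : σ3 a = σ b := by simp [e3, Equiv.swap_apply_of_ne_of_ne n1 n3, p2a]
  have p3b : σ3 b = σ a' := by simp [e3, Equiv.swap_apply_of_ne_of_ne n4.symm n6, p2b]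
  have p3a' : σ3 a' = σ b' := by simp [e3, p2b']
  have p3b' : σ3 b' = σ a := by simp [e3, p2a']
  have s4 : Rch Y col σ3 ((Equiv.swap b' a).trans σ3) :=
    move' (by rw [p3b', p3a]; exact hxz) d4.symm
  set σ4 : T ≃ V := (Equiv.swap b' a).trans σ3 with e4
  have p4a : σ4 a = σ a := by simp [e4, p3b']
  have p4b : σ4 b = σ a' := by simp [e4, Equiv.swap_apply_of_ne_of_ne n6 n2.symm, p3b]
  have p4a' : σ4 a' = σ b' := by simp [e4, Equiv.swap_apply_of_ne_of_ne n5 n1.symm, p3a']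
  have p4b' : σ4 b' = σ b := by simp [e4, p3a]
  have s5 : Rch Y col σ4 ((Equiv.swap a b).trans σ4) :=
    move' (by rw [p4a, p4b]; exact hxy) d1
  set σ5 : T ≃ V := (Equiv.swap a b).trans σ4 with e5
  have p5a : σ5 a = σ a' := by simp [e5, p4b]
  have p5b : σ5 b = σ a := by simp [e5, p4a]
  have p5a' : σ5 a' = σ b' := by simp [e5, Equiv.swap_apply_of_ne_of_ne n1.symm n4, p4a']
  have p5b' : σ5 b' = σ b := by simp [e5, Equiv.swap_apply_of_ne_of_ne n3.symm n6.symm, p4b']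
  have s6 : Rch Y col σ5 ((Equiv.swap b a').trans σ5) :=
    move' (by rw [p5b, p5a']; exact hxw) d2.symm
  set σ6 : T ≃ V := (Equiv.swap b a').trans σ5 with e6
  have p6a : σ6 a = σ a' := by simp [e6, Equiv.swap_apply_of_ne_of_ne n2 n1, p5a]
  have p6b : σ6 b = σ b' := by simp [e6, p5a']
  have p6a' : σ6 a' = σ a := by simp [e6, p5b]
  have p6b' : σ6 b' = σ b := by simp [e6, Equiv.swap_apply_of_ne_of_ne n6.symm n5.symm, p5b']
  have hfin : σ6 = (Equiv.swap a a' * Equiv.swap b b').trans σ := by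
    ext t
    show σ6 t = σ ((Equiv.swap a a') ((Equiv.swap b b') t))
    by_cases ta : t = a
    · rw [ta, p6a, Equiv.swap_apply_of_ne_of_ne n2 n3, Equiv.swap_apply_left]
    by_cases ta' : t = a'
    · rw [ta', p6a', Equiv.swap_apply_of_ne_of_ne n4 n5, Equiv.swap_apply_right]
    by_cases tb : t = b
    · rw [tb, p6b, Equiv.swap_apply_left, Equiv.swap_apply_of_ne_of_ne n3.symm n5.symm]
    by_cases tb' : t = b'
    · rw [tb', p6b', Equiv.swap_apply_right, Equiv.swap_apply_of_ne_of_ne n2.symm n4.symm]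
    rw [Equiv.swap_apply_of_ne_of_ne tb tb', Equiv.swap_apply_of_ne_of_ne ta ta']
    simp only [e6, e5, e4, e3, e2, e1, Equiv.trans_apply]
    rw [Equiv.swap_apply_of_ne_of_ne tb ta', Equiv.swap_apply_of_ne_of_ne ta tb,
      Equiv.swap_apply_of_ne_of_ne tb' ta, Equiv.swap_apply_of_ne_of_ne ta' tb',
      Equiv.swap_apply_of_ne_of_ne tb ta', Equiv.swap_apply_of_ne_of_ne ta tb]
  rw [← hfin]
  exact s1.trans (s2.trans (s3.trans (s4.trans (s5.trans s6))))

theorem claw1 (h : S_claw2) (h' : S_link) : S_claw1 := by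
  intro V T _ _ Y col σ x y z w hxy hxz hxw hyz hyw hzw c1 c2 c3
  have hxy' : x ≠ y := hxy.ne
  have hxz' : x ≠ z := hxz.ne
  have hxw' : x ≠ w := hxw.ne
  have hm : Rch Y col σ (σ.trans (Equiv.swap x w)) := move hxw (by rw [c3]; simp)
  have e1 : pc col (σ.trans (Equiv.swap x w)) x = pc col σ w := by
    rw [pc_move, Equiv.swap_apply_left]
  have e2 : pc col (σ.trans (Equiv.swap x w)) w = pc col σ x := by
    rw [pc_move, Equiv.swap_apply_right]
  have e3 : pc col (σ.trans (Equiv.swap x w)) y = pc col σ y := by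
    rw [pc_move, Equiv.swap_apply_of_ne_of_ne hxy'.symm hyw]
  have e4 : pc col (σ.trans (Equiv.swap x w)) z = pc col σ z := by
    rw [pc_move, Equiv.swap_apply_of_ne_of_ne hxz'.symm hzw]
  have hl := h V T Y col (σ.trans (Equiv.swap x w)) x z w y hxz hxw hxy hzw hyz.symm hyw.symm
    (by rw [e2, e3, c1]) (by rw [e1, e2, c3]) (by rw [e4, e2, c2])
  rw [move_symm_apply, move_symm_apply, Equiv.swap_apply_right,
    Equiv.swap_apply_of_ne_of_ne hxy'.symm hyw] at hl
  exact (h' V T Y col).1 _ _ _ _ hm.symm c1.symm hl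

end Pool.Agent.H83.FS
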